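import Mathlib
import Pool.Agent.Helpers.H19AsdDefs
import Pool.Agent.Helpers.H19cDefs
import Pool.Agent.Helpers.H19cMain

set_option autoImplicit false

namespace Pool.Agent.Results.MP_40378c_al.Invariance

open Pool.Agent.Helpers.H19Asd Pool.Agent.Helpers.H19c

/-- Having connected boundaries is invariant (a) under changing the finite generating set of a
group, (b) under bi-Lipschitz equivalence and (c) under quasi-isometry of Cayley graphs; the last
clause is the corresponding statement for all connected locally finite graphs. -/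
theorem result :
    (∀ (G : Type) [Group G] (S T : Set G), S.Finite → T.Finite → Subgroup.closure S = ⊤ →
      Subgroup.closure T = ⊤ → ConnectedBoundaries (cayley S) → ConnectedBoundaries (cayley T)) ∧
    (∀ (G H : Type) [Group G] [Group H] (S : Set G) (T : Set H), S.Finite → T.Finite →
      Subgroup.closure S = ⊤ → Subgroup.closure T = ⊤ → ∀ (f : G ≃ H) (A : ℕ),
      (∀ x y, (cayley T).dist (f x) (f y) ≤ A * (cayley S).dist x y) →
      (∀ x y, (cayley S).dist x y ≤ A * (cayley T).dist (f x) (f y)) →
      ConnectedBoundaries (cayley S) → ConnectedBoundaries (cayley T)) ∧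
    (∀ (G H : Type) [Group G] [Group H] (S : Set G) (T : Set H), S.Finite → T.Finite →
      Subgroup.closure S = ⊤ → Subgroup.closure T = ⊤ → ∀ f : G → H,
      IsQI (cayley S) (cayley T) f →
      ConnectedBoundaries (cayley S) → ConnectedBoundaries (cayley T)) ∧
    (∀ (V W : Type) (Γ : SimpleGraph V) (Δ : SimpleGraph W), Γ.Connected → Δ.Connected →
      (∀ v, (Γ.neighborSet v).Finite) → (∀ w, (Δ.neighborSet w).Finite) → ∀ f : V → W,
      IsQI Γ Δ f → ConnectedBoundaries Γ → ConnectedBoundaries Δ) := by
  refine ⟨?_, ?_, ?_, ?_⟩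
  · intro G _ S T hS hT hSc hTc h
    exact main (cayley_connected hSc) (cayley_connected hTc) (cayley_finite hS)
      (cayley_finite hT) (cayley_qi hS hT hSc hTc) h
  · intro G H _ _ S T hS hT hSc hTc f A h1 h2 h
    refine main (cayley_connected hSc) (cayley_connected hTc) (cayley_finite hS)
      (cayley_finite hT) (f := f) ⟨A, 0, fun x y => h1 x y, fun x y => h2 x y, fun w => ?_⟩ h
    exact ⟨f.symm w, by simp⟩
  · intro G H _ _ S T hS hT hSc hTc f hf h
    exact main (cayley_connected hSc) (cayley_connected hTc) (cayley_finite hS)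
      (cayley_finite hT) hf h
  · intro V W Γ Δ hΓ hΔ h1 h2 f hf h
    exact main hΓ hΔ h1 h2 hf h

end Pool.Agent.Results.MP_40378c_al.Invariance
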